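import Pool.Agent.Helper51.LT.St

/-!
# Project LT (MP_d6acc2_an), module TCF

Cauchy's formula for the Taylor coefficients on circles about the origin.
-/

set_option autoImplicit false

namespace Pool.Agent.Helper41.LT

open Complex MeasureTheory Set Metric Filter Topology
open scoped Real ENNReal
open Pool.Agent.Helper60.Rel (LH tc Admissible ClassS LogData om th)
open Pool.Agent.Helper51.LT

theorem hTcf : StTcf := by
  intro F r n hr hF _
  have h := hF.circleIntegral_one_div_sub_center_pow_smul hr n
  rw [circleIntegral] at h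
  have hint : (∫ θ in (0 : ℝ)..2 * π, deriv (circleMap 0 r) θ •
      ((1 / (circleMap 0 r θ - 0) ^ (n + 1)) • F (circleMap 0 r θ))) =
      ∫ t in (0 : ℝ)..(2 * π), I * (F (circleMap 0 r t) * (circleMap 0 r t ^ n)⁻¹) := by
    congr 1
    ext θ
    have hne : circleMap 0 r θ ≠ 0 := by
      simpa using circleMap_ne_center (c := (0 : ℂ)) (θ := θ) hr.ne'
    rw [deriv_circleMap, sub_zero, smul_eq_mul, smul_eq_mul]
    field_simp
    ring
  rw [hint, intervalIntegral.integral_const_mul, smul_eq_mul] at h
  have hpi : (π : ℂ) ≠ 0 := by exact_mod_cast Real.pi_ne_zero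
  have hfac : (n.factorial : ℂ) ≠ 0 := by exact_mod_cast n.factorial_ne_zero
  have h2 : (∫ t in (0 : ℝ)..(2 * π), F (circleMap 0 r t) * (circleMap 0 r t ^ n)⁻¹) =
      2 * π / n.factorial * iteratedDeriv n F 0 := by
    have := mul_left_cancel₀ I_ne_zero (a := I)
      (b := ∫ t in (0 : ℝ)..(2 * π), F (circleMap 0 r t) * (circleMap 0 r t ^ n)⁻¹)
      (c := 2 * π / n.factorial * iteratedDeriv n F 0)
    apply this
    rw [h]
    ring
  rw [h2, tc]
  push_cast
  field_simp

end Pool.Agent.Helper41.LT
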