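import Pool.Agent.Helper49.LT.StA

/-!
# Project LT (MP_b21509_co), module TP2: expansion of the length
-/

open MeasureTheory Set Filter Metric

namespace Pool.Agent.Helper41.LT

open Helper49.LT Helper97.CB

/-- second derivative of the base curve -/
private noncomputable def zdd (v : ℂ × ℂ) (s : ℝ) : ℂ :=
  -(ee s + 4 * v.1 * ee (-2 * s) + 16 * v.2 * ee (-4 * s))

private theorem hasDerivAt_zd (v : ℂ × ℂ) (s : ℝ) : HasDerivAt (zd v) (zdd v s) s := by
  have h1 := hasDerivAt_ee' s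
  have h2 := (hasDerivAt_ee (-2) s).const_mul (2 * v.1)
  have h3 := (hasDerivAt_ee (-4) s).const_mul (4 * v.2)
  have h := ((h1.sub h2).sub h3).const_mul Complex.I
  have e : zdd v s = Complex.I * (Complex.I * ee s -
      2 * v.1 * (((-2 : ℝ) : ℂ) * Complex.I * ee (-2 * s)) -
      4 * v.2 * (((-4 : ℝ) : ℂ) * Complex.I * ee (-4 * s))) := by
    unfold zdd
    push_cast
    linear_combination (-(ee s + 4 * v.1 * ee (-2 * s) + 16 * v.2 * ee (-4 * s))) *
      Complex.I_mul_I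
  rw [e]
  exact h

private theorem zdd_eq (x : ℂ × ℂ) (t : ℝ) :
    zdd x t = -(ee t * (1 + 4 * (rot t x).1 + 16 * (rot t x).2)) := by
  have h2 : ee (-2 * t) = ee t * ee (-3 * t) := by
    rw [← ee_add]; congr 1; ring
  have h4 : ee (-4 * t) = ee t * ee (-5 * t) := by
    rw [← ee_add]; congr 1; ring
  simp only [zdd, rot, h2, h4]
  ring

/-- the real inequality behind the expansion -/
private theorem pt_ineq (a b c d w w' σ m : ℝ) (hσ : 0 < σ) (hσ2 : σ ^ 2 = c ^ 2 + d ^ 2)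
    (h : 2 * ((1 + w) * σ + w' * ((b * c - a * d) / σ)) * m + m ^ 2 * w' ^ 2 ≤
      ((a * c + b * d) / σ) ^ 2) :
    (1 + w) * σ + w' * ((b * c - a * d) / σ) + m * w' ^ 2 ≤
      Real.sqrt ((w' * a - (1 + w) * d) ^ 2 + (w' * b + (1 + w) * c) ^ 2) := by
  apply Real.le_sqrt_of_sq_le
  have e1 : (w' * a - (1 + w) * d) ^ 2 + (w' * b + (1 + w) * c) ^ 2 =
      ((1 + w) * σ + w' * ((b * c - a * d) / σ)) ^ 2 + w' ^ 2 * ((a * c + b * d) / σ) ^ 2 := by
    have h1 : ((b * c - a * d) / σ) ^ 2 + ((a * c + b * d) / σ) ^ 2 = a ^ 2 + b ^ 2 := by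
      rw [div_pow, div_pow, ← add_div, div_eq_iff (by positivity), hσ2]
      ring
    have h2 : σ * ((b * c - a * d) / σ) = b * c - a * d := by
      field_simp
    have h3 : ((1 + w) * σ + w' * ((b * c - a * d) / σ)) ^ 2 +
        w' ^ 2 * ((a * c + b * d) / σ) ^ 2 = (1 + w) ^ 2 * σ ^ 2 +
        2 * (1 + w) * w' * (σ * ((b * c - a * d) / σ)) +
        w' ^ 2 * (((b * c - a * d) / σ) ^ 2 + ((a * c + b * d) / σ) ^ 2) := by ring
    rw [h3, h2, h1, hσ2]
    ring
  rw [e1]
  have h4 := mul_le_mul_of_nonneg_left h (sq_nonneg w')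
  nlinarith [h4]

/-- `(z·z')/|z'|` on the base curve -/
private noncomputable def gG (x : ℂ × ℂ) (t : ℝ) : ℝ :=
  (zh x t * (starRingEnd ℂ) (zd x t)).re / Real.sqrt ((zd x t * (starRingEnd ℂ) (zd x t)).re)

private theorem sg_sq (v : ℂ × ℂ) : sg v ^ 2 =
    (1 - 2 * v.1 - 4 * v.2).re ^ 2 + (1 - 2 * v.1 - 4 * v.2).im ^ 2 := by
  unfold sg
  rw [← Complex.normSq_eq_norm_sq, Complex.normSq_apply]
  ring

private theorem h0_eq (v : ℂ × ℂ) : h0 v = (1 + v.1 + v.2).re * (1 - 2 * v.1 - 4 * v.2).re +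
    (1 + v.1 + v.2).im * (1 - 2 * v.1 - 4 * v.2).im := by
  simp [h0, k3, s3, k5, s5]
  ring

private theorem re_pp (x : ℂ × ℂ) (t : ℝ) : (zh x t * (starRingEnd ℂ) (zd x t)).re =
    (1 + (rot t x).1 + (rot t x).2).im * (1 - 2 * (rot t x).1 - 4 * (rot t x).2).re -
    (1 + (rot t x).1 + (rot t x).2).re * (1 - 2 * (rot t x).1 - 4 * (rot t x).2).im := by
  have h : zh x t * (starRingEnd ℂ) (zd x t) = (1 + (rot t x).1 + (rot t x).2) *
      ((starRingEnd ℂ) Complex.I * (starRingEnd ℂ) (1 - 2 * (rot t x).1 - 4 * (rot t x).2)) := by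
    rw [zh_eq, zd_eq, map_mul, map_mul]
    linear_combination ((1 + (rot t x).1 + (rot t x).2) * ((starRingEnd ℂ) Complex.I *
      (starRingEnd ℂ) (1 - 2 * (rot t x).1 - 4 * (rot t x).2))) * ee_mul_conj t
  rw [h]
  generalize (1 + (rot t x).1 + (rot t x).2) = A
  generalize (1 - 2 * (rot t x).1 - 4 * (rot t x).2) = B
  simp only [Complex.mul_re, Complex.mul_im, Complex.conj_re, Complex.conj_im, Complex.I_re,
    Complex.I_im]
  ring

private theorem re_ss (x : ℂ × ℂ) (t : ℝ) : (zd x t * (starRingEnd ℂ) (zd x t)).re =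
    sg (rot t x) ^ 2 := by
  rw [Complex.mul_conj, Complex.normSq_eq_norm_sq, norm_zd, Complex.ofReal_re]

private theorem re_sd (x : ℂ × ℂ) (t : ℝ) : (zd x t * (starRingEnd ℂ) (zdd x t)).re =
    (1 - 2 * (rot t x).1 - 4 * (rot t x).2).im * (1 + 4 * (rot t x).1 + 16 * (rot t x).2).re -
    (1 - 2 * (rot t x).1 - 4 * (rot t x).2).re * (1 + 4 * (rot t x).1 + 16 * (rot t x).2).im := by
  have h : zd x t * (starRingEnd ℂ) (zdd x t) = -(Complex.I *
      (1 - 2 * (rot t x).1 - 4 * (rot t x).2) *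
      (starRingEnd ℂ) (1 + 4 * (rot t x).1 + 16 * (rot t x).2)) := by
    rw [zdd_eq, zd_eq, map_neg, map_mul]
    linear_combination (-(Complex.I * (1 - 2 * (rot t x).1 - 4 * (rot t x).2) *
      (starRingEnd ℂ) (1 + 4 * (rot t x).1 + 16 * (rot t x).2))) * ee_mul_conj t
  rw [h]
  generalize (1 + 4 * (rot t x).1 + 16 * (rot t x).2) = A
  generalize (1 - 2 * (rot t x).1 - 4 * (rot t x).2) = B
  simp only [Complex.neg_re, Complex.mul_re, Complex.mul_im, Complex.conj_re, Complex.conj_im,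
    Complex.I_re, Complex.I_im]
  ring

private theorem re_pd (x : ℂ × ℂ) (t : ℝ) : (zh x t * (starRingEnd ℂ) (zdd x t)).re =
    -((1 + (rot t x).1 + (rot t x).2).re * (1 + 4 * (rot t x).1 + 16 * (rot t x).2).re +
    (1 + (rot t x).1 + (rot t x).2).im * (1 + 4 * (rot t x).1 + 16 * (rot t x).2).im) := by
  have h : zh x t * (starRingEnd ℂ) (zdd x t) = -((1 + (rot t x).1 + (rot t x).2) *
      (starRingEnd ℂ) (1 + 4 * (rot t x).1 + 16 * (rot t x).2)) := by
    rw [zdd_eq, zh_eq, map_neg, map_mul]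
    linear_combination (-((1 + (rot t x).1 + (rot t x).2) *
      (starRingEnd ℂ) (1 + 4 * (rot t x).1 + 16 * (rot t x).2))) * ee_mul_conj t
  rw [h]
  generalize (1 + 4 * (rot t x).1 + 16 * (rot t x).2) = A
  generalize (1 + (rot t x).1 + (rot t x).2) = B
  simp only [Complex.neg_re, Complex.mul_re, Complex.conj_re, Complex.conj_im]
  ring

private theorem kt_eq (v : ℂ × ℂ) : kt v = h0 v *
    ((1 - 2 * v.1 - 4 * v.2).re * (1 + 4 * v.1 + 16 * v.2).re +
    (1 - 2 * v.1 - 4 * v.2).im * (1 + 4 * v.1 + 16 * v.2).im) / sg v ^ 3 := by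
  unfold kt
  congr 2
  simp only [Complex.mul_re, Complex.conj_re, Complex.conj_im]
  ring

private theorem gG_eq (x : ℂ × ℂ) (t : ℝ) : gG x t =
    ((1 + (rot t x).1 + (rot t x).2).im * (1 - 2 * (rot t x).1 - 4 * (rot t x).2).re -
    (1 + (rot t x).1 + (rot t x).2).re * (1 - 2 * (rot t x).1 - 4 * (rot t x).2).im) /
      sg (rot t x) := by
  unfold gG
  have h : 0 ≤ sg (rot t x) := norm_nonneg _
  rw [re_pp, re_ss, Real.sqrt_sq h]

private theorem hasDerivAt_gG (x : ℂ × ℂ) (t : ℝ) (hs : 0 < sg (rot t x)) :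
    HasDerivAt (gG x) (sg (rot t x) - kt (rot t x)) t := by
  have d1 := hasDerivAt_zh x t
  have d2 := hasDerivAt_zd x t
  have d3 : HasDerivAt (fun s => (starRingEnd ℂ) (zd x s)) ((starRingEnd ℂ) (zdd x t)) t := d2.star
  have d4 : HasDerivAt (fun s => (zh x s * (starRingEnd ℂ) (zd x s)).re)
      (zd x t * (starRingEnd ℂ) (zd x t) + zh x t * (starRingEnd ℂ) (zdd x t)).re t :=
    Complex.reCLM.hasFDerivAt.comp_hasDerivAt t (d1.mul d3)
  have d5 : HasDerivAt (fun s => (zd x s * (starRingEnd ℂ) (zd x s)).re)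
      (zdd x t * (starRingEnd ℂ) (zd x t) + zd x t * (starRingEnd ℂ) (zdd x t)).re t :=
    Complex.reCLM.hasFDerivAt.comp_hasDerivAt t (d2.mul d3)
  have hne : (zd x t * (starRingEnd ℂ) (zd x t)).re ≠ 0 := by
    rw [re_ss]
    positivity
  have hne2 : Real.sqrt ((zd x t * (starRingEnd ℂ) (zd x t)).re) ≠ 0 := by
    rw [re_ss, Real.sqrt_sq hs.le]
    exact hs.ne'
  have d6 := d4.div (d5.sqrt hne) hne2
  have e1 : (zdd x t * (starRingEnd ℂ) (zd x t)).re = (zd x t * (starRingEnd ℂ) (zdd x t)).re := by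
    simp only [Complex.mul_re, Complex.conj_re, Complex.conj_im]
    ring
  have e : sg (rot t x) - kt (rot t x) =
      ((zd x t * (starRingEnd ℂ) (zd x t) + zh x t * (starRingEnd ℂ) (zdd x t)).re *
        Real.sqrt ((zd x t * (starRingEnd ℂ) (zd x t)).re) -
      (zh x t * (starRingEnd ℂ) (zd x t)).re *
        ((zdd x t * (starRingEnd ℂ) (zd x t) + zd x t * (starRingEnd ℂ) (zdd x t)).re /
        (2 * Real.sqrt ((zd x t * (starRingEnd ℂ) (zd x t)).re)))) /
      Real.sqrt ((zd x t * (starRingEnd ℂ) (zd x t)).re) ^ 2 := by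
    rw [Complex.add_re, Complex.add_re, e1, re_ss, re_pp, re_sd, re_pd, Real.sqrt_sq hs.le,
      kt_eq, h0_eq]
    have hq := sg_sq (rot t x)
    generalize sg (rot t x) = σ at *
    generalize (1 + 4 * (rot t x).1 + 16 * (rot t x).2) = D at *
    generalize (1 + (rot t x).1 + (rot t x).2) = A at *
    generalize (1 - 2 * (rot t x).1 - 4 * (rot t x).2) = B at *
    have hσ : σ ≠ 0 := hs.ne'
    field_simp
    linear_combination (2 * (A.re * D.re + A.im * D.im)) * hq
  rw [e]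
  exact d6

/-- the norm of the derivative of the boundary curve -/
private theorem norm_V (x : ℂ × ℂ) (t w w' : ℝ) :
    ‖(w' : ℂ) * zh x t + ((1 + w : ℝ) : ℂ) * zd x t‖ =
    Real.sqrt ((w' * (1 + (rot t x).1 + (rot t x).2).re -
      (1 + w) * (1 - 2 * (rot t x).1 - 4 * (rot t x).2).im) ^ 2 +
      (w' * (1 + (rot t x).1 + (rot t x).2).im +
      (1 + w) * (1 - 2 * (rot t x).1 - 4 * (rot t x).2).re) ^ 2) := by
  have h : (w' : ℂ) * zh x t + ((1 + w : ℝ) : ℂ) * zd x t = ee t *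
      ((w' : ℂ) * (1 + (rot t x).1 + (rot t x).2) +
      ((1 + w : ℝ) : ℂ) * (Complex.I * (1 - 2 * (rot t x).1 - 4 * (rot t x).2))) := by
    rw [zh_eq, zd_eq]
    ring
  rw [h, norm_mul, norm_ee, one_mul]
  generalize (1 + (rot t x).1 + (rot t x).2) = A
  generalize (1 - 2 * (rot t x).1 - 4 * (rot t x).2) = B
  rw [← Real.sqrt_sq (norm_nonneg _), ← Complex.normSq_eq_norm_sq, Complex.normSq_apply]
  congr 1
  simp only [Complex.add_re, Complex.add_im, Complex.mul_re, Complex.mul_im, Complex.ofReal_re,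
    Complex.ofReal_im, Complex.I_re, Complex.I_im]
  ring

/-- the pointwise lower bound -/
private theorem pt_bound (x : ℂ × ℂ) (t w w' η : ℝ) (hx : ‖x‖ ≤ 1 / 200) (hη : η ≤ 1 / 200)
    (hη0 : 0 ≤ η) (hw : |w| ≤ η) (hw' : |w'| ≤ η) :
    (1 + w) * sg (rot t x) + w' * gG x t + (1 / 2 - 50 * (η + ‖x‖)) * w' ^ 2 ≤
      ‖(w' : ℂ) * zh x t + ((1 + w : ℝ) : ℂ) * zd x t‖ := by
  have hn0 : 0 ≤ ‖x‖ := norm_nonneg x
  have hsg := abs_sg_sub (rot t x)
  have hh0 := abs_h0_sub (rot t x) (by rw [norm_rot]; linarith)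
  rw [norm_rot] at hsg hh0
  rw [abs_le] at hsg hh0
  have hq := sg_sq (rot t x)
  have hh := h0_eq (rot t x)
  have hA : ‖(1 + (rot t x).1 + (rot t x).2 : ℂ)‖ ≤ 1 + 2 * ‖x‖ := by
    have h1 := norm_zh_le x t
    rw [zh_eq, norm_mul, norm_ee, one_mul] at h1
    exact h1
  rw [norm_V, gG_eq]
  have hσ : 0 < sg (rot t x) := by linarith [hsg.1]
  apply pt_ineq _ _ _ _ _ _ _ _ hσ hq
  rw [← hh]
  have hg : |((1 + (rot t x).1 + (rot t x).2).im * (1 - 2 * (rot t x).1 - 4 * (rot t x).2).re -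
    (1 + (rot t x).1 + (rot t x).2).re * (1 - 2 * (rot t x).1 - 4 * (rot t x).2).im) /
      sg (rot t x)| ≤ 1 + 2 * ‖x‖ := by
    rw [abs_div, abs_of_pos hσ, div_le_iff₀ hσ]
    have h1 : (1 + (rot t x).1 + (rot t x).2).im * (1 - 2 * (rot t x).1 - 4 * (rot t x).2).re -
        (1 + (rot t x).1 + (rot t x).2).re * (1 - 2 * (rot t x).1 - 4 * (rot t x).2).im =
        ((1 + (rot t x).1 + (rot t x).2) *
          (starRingEnd ℂ) (1 - 2 * (rot t x).1 - 4 * (rot t x).2)).im := by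
      simp only [Complex.mul_im, Complex.conj_re, Complex.conj_im]
      ring
    rw [h1]
    refine (Complex.abs_im_le_norm _).trans ?_
    rw [norm_mul, RCLike.norm_conj]
    exact mul_le_mul_of_nonneg_right hA (norm_nonneg _)
  generalize ((1 + (rot t x).1 + (rot t x).2).im * (1 - 2 * (rot t x).1 - 4 * (rot t x).2).re -
    (1 + (rot t x).1 + (rot t x).2).re * (1 - 2 * (rot t x).1 - 4 * (rot t x).2).im) /
      sg (rot t x) = G at *
  generalize sg (rot t x) = σ at *
  generalize h0 (rot t x) = H at *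
  generalize ‖x‖ = n at *
  have hs1 : (1 + w) * σ ≤ (1 + η) * (1 + 6 * n) := by
    have h1 := (abs_le.mp hw).2
    exact mul_le_mul (by linarith) (by linarith [hsg.2]) hσ.le (by linarith)
  have hs2 : w' * G ≤ η * (1 + 2 * n) := by
    refine (le_abs_self _).trans ?_
    rw [abs_mul]
    exact mul_le_mul hw' hg (abs_nonneg _) hη0
  have hm0 : 0 ≤ 1 / 2 - 50 * (η + n) := by linarith
  have hp : 2 * ((1 + w) * σ + w' * G) * (1 / 2 - 50 * (η + n)) ≤
      2 * (1 + 8 * (η + n)) * (1 / 2 - 50 * (η + n)) := by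
    apply mul_le_mul_of_nonneg_right _ hm0
    nlinarith
  have hw2 : w' ^ 2 ≤ η ^ 2 := by
    rw [← sq_abs w']
    exact pow_le_pow_left₀ (abs_nonneg _) hw' 2
  have hm2 : (1 / 2 - 50 * (η + n)) ^ 2 * w' ^ 2 ≤ 1 / 4 * η ^ 2 := by
    apply mul_le_mul _ hw2 (sq_nonneg _) (by norm_num)
    nlinarith
  have hH : 1 - 36 * n ≤ H / σ := by
    rw [le_div_iff₀ hσ]
    have h1 : (1 - 36 * n) * σ ≤ (1 - 36 * n) * (1 + 6 * n) :=
      mul_le_mul_of_nonneg_left (by linarith [hsg.2]) (by linarith)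
    nlinarith
  have hH2 : (1 - 36 * n) ^ 2 ≤ (H / σ) ^ 2 := pow_le_pow_left₀ (by linarith) hH 2
  nlinarith

theorem hTP2 : StTp2 := by
  refine ⟨50, 1 / 200, by norm_num, by norm_num, ?_⟩
  intro x w w' η hx hη hR
  have hη0 := hR.eta_nonneg
  have hs : ∀ t, 0 < sg (rot t x) := by
    intro t
    have h := abs_sg_sub (rot t x)
    rw [norm_rot, abs_le] at h
    linarith [h.1]
  have cσ : Continuous fun t => sg (rot t x) := continuous_sg.comp (continuous_rot x)
  have ch0 : Continuous fun t => h0 (rot t x) := continuous_h0.comp (continuous_rot x)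
  have ckt : Continuous fun t => kt (rot t x) := by
    have c0 := continuous_ee
    unfold kt
    refine (ch0.mul ?_).div (cσ.pow 3) fun t => pow_ne_zero 3 (hs t).ne'
    unfold rot
    fun_prop
  have cG : Continuous (gG x) :=
    continuous_iff_continuousAt.mpr fun t => (hasDerivAt_gG x t (hs t)).continuousAt
  have perG : gG x (2 * Real.pi) = gG x 0 := by
    have h1 := zh_per x 0
    have h2 := zd_per x 0
    rw [zero_add] at h1 h2
    unfold gG
    rw [h1, h2]
  have perw : w (2 * Real.pi) = w 0 := by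
    have h1 := hR.per 0
    rw [zero_add] at h1
    exact h1
  -- integrability
  have i1 : IntervalIntegrable (fun t => w' t * gG x t) volume 0 (2 * Real.pi) :=
    (hR.int' 0 (2 * Real.pi)).mul_continuousOn cG.continuousOn
  have i2 : IntervalIntegrable (fun t => w t * (sg (rot t x) - kt (rot t x))) volume 0
      (2 * Real.pi) := (hR.con.mul (cσ.sub ckt)).intervalIntegrable _ _
  have i3 : IntervalIntegrable (fun t => w' t ^ 2) volume 0 (2 * Real.pi) := by
    have hc : IntervalIntegrable (fun _ : ℝ => η ^ 2) volume 0 (2 * Real.pi) :=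
      intervalIntegrable_const
    refine hc.mono_fun (hR.mea.pow_const 2).aestronglyMeasurable ?_
    filter_upwards with t
    rw [Real.norm_eq_abs, Real.norm_eq_abs, abs_of_nonneg (sq_nonneg _),
      abs_of_nonneg (sq_nonneg _), ← sq_abs (w' t)]
    exact pow_le_pow_left₀ (abs_nonneg _) (hR.bdd' t) 2
  have i4 : IntervalIntegrable (fun t => (1 + w t) * sg (rot t x)) volume 0 (2 * Real.pi) :=
    ((continuous_const.add hR.con).mul cσ).intervalIntegrable _ _
  have i5 : IntervalIntegrable (fun t => ‖(w' t : ℂ) * zh x t + ((1 + w t : ℝ) : ℂ) * zd x t‖)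
      volume 0 (2 * Real.pi) := by
    refine IntervalIntegrable.norm (IntervalIntegrable.add ?_ ?_)
    · have h1 : IntervalIntegrable (fun t => ((w' t : ℝ) : ℂ)) volume 0 (2 * Real.pi) :=
        ⟨(hR.int' 0 (2 * Real.pi)).1.ofReal, (hR.int' 0 (2 * Real.pi)).2.ofReal⟩
      exact h1.mul_continuousOn (continuous_zh x).continuousOn
    · refine Continuous.intervalIntegrable ?_ _ _
      exact (Complex.continuous_ofReal.comp (continuous_const.add hR.con)).mul (continuous_zd x)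
  -- integration by parts
  have hparts : ∫ t in (0 : ℝ)..(2 * Real.pi), (w' t * gG x t +
      w t * (sg (rot t x) - kt (rot t x))) = 0 := by
    rw [intervalIntegral.integral_eq_sub_of_hasDeriv_right (f := fun t => w t * gG x t)
      (hR.con.mul cG).continuousOn (fun t _ => (hR.der t).mul
        (hasDerivAt_gG x t (hs t)).hasDerivWithinAt) (i1.add i2)]
    beta_reduce
    rw [perG, perw, sub_self]
  -- main inequality
  have hmain := intervalIntegral.integral_mono_on (by positivity : (0 : ℝ) ≤ 2 * Real.pi)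
    ((i4.add i1).add (i3.const_mul (1 / 2 - 50 * (η + ‖x‖)))) i5
    (fun t _ => pt_bound x t (w t) (w' t) η hx hη hη0 (hR.bdd t) (hR.bdd' t))
  have i6 : IntervalIntegrable (fun t => sg (rot t x)) volume 0 (2 * Real.pi) :=
    cσ.intervalIntegrable _ _
  have i7 : IntervalIntegrable (fun t => w t * kt (rot t x)) volume 0 (2 * Real.pi) :=
    (hR.con.mul ckt).intervalIntegrable _ _
  have hsum : ∫ t in (0 : ℝ)..(2 * Real.pi), ((1 + w t) * sg (rot t x) + w' t * gG x t +
      (1 / 2 - 50 * (η + ‖x‖)) * w' t ^ 2) =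
      (∫ t in (0 : ℝ)..(2 * Real.pi), sg (rot t x)) +
      (∫ t in (0 : ℝ)..(2 * Real.pi), w t * kt (rot t x)) +
      (∫ t in (0 : ℝ)..(2 * Real.pi), (w' t * gG x t + w t * (sg (rot t x) - kt (rot t x)))) +
      (1 / 2 - 50 * (η + ‖x‖)) * ∫ t in (0 : ℝ)..(2 * Real.pi), w' t ^ 2 := by
    rw [← intervalIntegral.integral_const_mul, ← intervalIntegral.integral_add i6 i7,
      ← intervalIntegral.integral_add (i6.add i7) (i1.add i2),
      ← intervalIntegral.integral_add ((i6.add i7).add (i1.add i2)) (i3.const_mul _)]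
    refine intervalIntegral.integral_congr fun t _ => ?_
    beta_reduce
    ring
  rw [hsum, hparts] at hmain
  have e : q2 w' = ∫ t in (0 : ℝ)..(2 * Real.pi), w' t ^ 2 := rfl
  rw [e]
  linarith

end Pool.Agent.Helper41.LT
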